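import Pool.Agent.Lib_MP_70e04f_cre.ConfS

/-!
# The second alternative after a quadratic transformation, for curves which do not pass through the
points of multiplicity zero

The proofs are the ones of `Lib_MP_70e04f_cre/Num.lean` and `Lib_MP_70e04f_cre/RevAlt.lean`.
-/

set_option autoImplicit false

namespace Pool.MP_70e04f_ag.Cre

open MvPolynomial

section

variable {n d d' δ : ℕ} {m : Fin n → ℕ} {ι : Fin 3 → Fin n}

lemma cm_mul' (hlow : ∀ j, δ ≤ m (ι j) + 1) {a' : Fin n → ℕ}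
    (hl : ∀ i, cm m ι δ i = 0 → a' i = 0) (j : Fin 3) :
    (a' (ι j) : ℤ) * (cm m ι δ (ι j) : ℤ) = a' (ι j) * ((m (ι j) : ℤ) - δ) := by
  rcases Nat.lt_or_ge (m (ι j)) δ with h1 | h1
  · have h3 : cm m ι δ (ι j) = 0 := by rw [cm_ι]; omega
    rw [hl _ h3, h3]
    simp
  · rw [cm_ι]
    push_cast [Nat.cast_sub h1]
    ring

theorem neg_cm' (hι : Function.Injective ι) (hd : d' + δ = d) (hsum : ∑ j, m (ι j) = d + δ)
    (hlow : ∀ j, δ ≤ m (ι j) + 1) {e e' : ℕ}
    {a a' : Fin n → ℕ} (hl : ∀ i, cm m ι δ i = 0 → a' i = 0) (h : Neg d' (cm m ι δ) e' a') (he : e + ∑ j, a' (ι j) = 2 * e')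
    (ha : ∀ j, a (ι j) + ∑ k, a' (ι k) = e' + a' (ι j))
    (ha' : ∀ l, l ∉ Finset.univ.image ι → a l = a' l) : Neg d m e a := by
  have hmul := cm_mul' hlow hl
  obtain ⟨h1, h2, h3⟩ := h
  rw [sum_split hι] at h1 h2 h3
  beta_reduce at h1 h2 h3
  rw [hmul 0, hmul 1, hmul 2] at h3
  have s3 : ∑ i ∈ (Finset.univ.image ι)ᶜ, (a' i : ℤ) * (cm m ι δ i : ℤ) =
      ∑ i ∈ (Finset.univ.image ι)ᶜ, (a i : ℤ) * (m i : ℤ) :=
    Finset.sum_congr rfl fun i hi => by
      rw [cm_of_notMem (Finset.mem_compl.1 hi), ha' i (Finset.mem_compl.1 hi)]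
  have s2 : ∑ i ∈ (Finset.univ.image ι)ᶜ, (a' i : ℤ) = ∑ i ∈ (Finset.univ.image ι)ᶜ, (a i : ℤ) :=
    Finset.sum_congr rfl fun i hi => by rw [ha' i (Finset.mem_compl.1 hi)]
  have s1 : ∑ i ∈ (Finset.univ.image ι)ᶜ, (a' i : ℤ) ^ 2 =
      ∑ i ∈ (Finset.univ.image ι)ᶜ, (a i : ℤ) ^ 2 :=
    Finset.sum_congr rfl fun i hi => by rw [ha' i (Finset.mem_compl.1 hi)]
  rw [s1] at h1
  rw [s2] at h2
  rw [s3] at h3
  rw [Fin.sum_univ_three] at hsum he
  have ha0 := ha 0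
  have ha1 := ha 1
  have ha2 := ha 2
  rw [Fin.sum_univ_three] at ha0 ha1 ha2
  have q0 : (m (ι 2) : ℤ) = d + δ - m (ι 0) - m (ι 1) := by
    have : (m (ι 0) : ℤ) + m (ι 1) + m (ι 2) = d + δ := by exact_mod_cast hsum
    linarith
  have q1 : (d' : ℤ) = d - δ := by rw [← hd]; push_cast; ring
  have q2 : (e : ℤ) = 2 * e' - (a' (ι 0) + a' (ι 1) + a' (ι 2)) := by
    have : (e : ℤ) + (a' (ι 0) + a' (ι 1) + a' (ι 2)) = 2 * e' := by exact_mod_cast he
    linarith
  have r0 : (a (ι 0) : ℤ) = e' - a' (ι 1) - a' (ι 2) := by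
    have : (a (ι 0) : ℤ) + (a' (ι 0) + a' (ι 1) + a' (ι 2)) = e' + a' (ι 0) := by
      exact_mod_cast ha0
    linarith
  have r1 : (a (ι 1) : ℤ) = e' - a' (ι 0) - a' (ι 2) := by
    have : (a (ι 1) : ℤ) + (a' (ι 0) + a' (ι 1) + a' (ι 2)) = e' + a' (ι 1) := by
      exact_mod_cast ha1
    linarith
  have r2 : (a (ι 2) : ℤ) = e' - a' (ι 0) - a' (ι 1) := by
    have : (a (ι 2) : ℤ) + (a' (ι 0) + a' (ι 1) + a' (ι 2)) = e' + a' (ι 2) := by
      exact_mod_cast ha2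
    linarith
  refine ⟨?_, ?_, ?_⟩
  · rw [sum_split hι]
    beta_reduce
    rw [r0, r1, r2, q2]
    linear_combination h1
  · rw [sum_split hι]
    beta_reduce
    rw [r0, r1, r2, q2]
    linear_combination h2
  · rw [sum_split hι]
    beta_reduce
    rw [r0, r1, r2, q2]
    rw [q1, q0] at h3
    rw [q0]
    linarith [h3]

theorem not_line' (hι : Function.Injective ι) (hd : d' + δ = d) (hsum : ∑ j, m (ι j) = d + δ)
    (hlow : ∀ j, δ ≤ m (ι j) + 1) {a' : Fin n → ℕ}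
    (hl : ∀ i, cm m ι δ i = 0 → a' i = 0) (j0 : Fin 3) (h0 : a' (ι j0) = 0) (h1 : ∀ j, j ≠ j0 → a' (ι j) = 1)
    (h2 : ∀ l, l ∉ Finset.univ.image ι → a' l = 0) : ¬ Neg d' (cm m ι δ) 1 a' := by
  intro h
  have hmul := cm_mul' hlow hl
  obtain ⟨-, -, h3⟩ := h
  rw [sum_split hι] at h3
  beta_reduce at h3
  rw [hmul 0, hmul 1, hmul 2] at h3
  have s3 : ∑ i ∈ (Finset.univ.image ι)ᶜ, (a' i : ℤ) * (cm m ι δ i : ℤ) = 0 :=
    Finset.sum_eq_zero fun i hi => by rw [h2 i (Finset.mem_compl.1 hi)]; simp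
  rw [s3] at h3
  rw [Fin.sum_univ_three] at hsum
  have q0 : (m (ι 0) : ℤ) + m (ι 1) + m (ι 2) = d + δ := by exact_mod_cast hsum
  have q1 : (d' : ℤ) = d - δ := by rw [← hd]; push_cast; ring
  fin_cases j0
  · have e0 : a' (ι 0) = 0 := h0
    have e1 := h1 1 (by decide)
    have e2 := h1 2 (by decide)
    rw [e0, e1, e2] at h3
    push_cast at h3
    omega
  · have e0 : a' (ι 1) = 0 := h0
    have e1 := h1 0 (by decide)
    have e2 := h1 2 (by decide)
    rw [e0, e1, e2] at h3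
    push_cast at h3
    omega
  · have e0 : a' (ι 2) = 0 := h0
    have e1 := h1 0 (by decide)
    have e2 := h1 1 (by decide)
    rw [e0, e1, e2] at h3
    push_cast at h3
    omega

end

theorem alt_not_dvd' {n d d' δ : ℕ} {m : Fin n → ℕ} {ι : Fin 3 → Fin n}
    (hι : Function.Injective ι) (hd : d' + δ = d) (hsum : ∑ j, m (ι j) = d + δ)
    (hlow : ∀ j, δ ≤ m (ι j) + 1)
    {q q' : Fin n → Fin 3 → ℂ}
    (hq' : ∀ j, q' (ι j) = Pi.single j 1)
    (hx : ∀ l, l ∉ Finset.univ.image ι → (∀ c, q l c ≠ 0) ∧ q' l = sg (q l))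
    {G : R3} {e' : ℕ} {a' : Fin n → ℕ} (hG : Irreducible G) (he : G.IsHomogeneous e')
    (ha : ∀ i, G ∈ mi (q' i) ^ a' i ∧ G ∉ mi (q' i) ^ (a' i + 1))
    (hl : ∀ i, cm m ι δ i = 0 → a' i = 0)
    (hneg : Neg d' (cm m ι δ) e' a') (j0 : Fin 3) : ¬ (X j0 : R3) ∣ G := by
  rintro ⟨K, hK⟩
  have hXu : ¬ IsUnit (X j0 : R3) := (MvPolynomial.X_prime (R := ℂ) (i := j0)).not_isUnit
  have hKu : IsUnit K := (hG.isUnit_or_isUnit hK).resolve_left hXu
  rw [MvPolynomial.isUnit_iff_eq_C_of_isReduced] at hKu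
  obtain ⟨c, hc, rfl⟩ := hKu
  have hc0 : c ≠ 0 := hc.ne_zero
  have hGm : G = monomial (Finsupp.single j0 1) c := by
    rw [hK, mul_comm, MvPolynomial.C_mul_X_eq_monomial]
  have hsupp : Finsupp.single j0 1 ∈ G.support := by
    rw [MvPolynomial.mem_support_iff, hGm, MvPolynomial.coeff_monomial, if_pos rfl]
    exact hc0
  have honly : ∀ s ∈ G.support, s = Finsupp.single j0 1 := by
    intro s hs
    rw [MvPolynomial.mem_support_iff, hGm, MvPolynomial.coeff_monomial] at hs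
    by_contra h
    exact hs (if_neg (fun h' => h h'.symm))
  have he1 : e' = 1 := by
    have := alt_degree he hsupp
    rw [← this]
    fin_cases j0 <;> simp
  subst he1
  have hmul : ∀ j, (Finsupp.single j0 1 : Fin 3 →₀ ℕ) j + a' (ι j) = 1 := by
    intro j
    obtain ⟨h1, h2⟩ := ha (ι j)
    rw [hq' j] at h1 h2
    obtain ⟨-, s, hs, h3⟩ := alt_mult he h1 h2
    rw [honly s hs] at h3
    exact h3
  refine not_line' hι hd hsum hlow hl j0 ?_ ?_ ?_ hneg
  · have := hmul j0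
    rw [Finsupp.single_eq_same] at this
    omega
  · intro j hj
    have := hmul j
    rw [Finsupp.single_eq_of_ne hj] at this
    omega
  · intro l hl
    obtain ⟨h1, h2⟩ := hx l hl
    by_contra h3
    have h4 : G ∈ mi (q' l) := by
      have := Ideal.pow_le_pow_right (I := mi (q' l)) (Nat.one_le_iff_ne_zero.2 h3) (ha l).1
      rwa [pow_one] at this
    rw [RingHom.mem_ker, h2, hK, map_mul, MvPolynomial.eval_X, MvPolynomial.eval_C] at h4
    rcases mul_eq_zero.1 h4 with h5 | h5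
    · fin_cases j0
      · exact mul_ne_zero (h1 1) (h1 2) h5
      · exact mul_ne_zero (h1 0) (h1 2) h5
      · exact mul_ne_zero (h1 0) (h1 1) h5
    · exact hc0 h5

theorem alt_cremona' {n d d' δ : ℕ} {m : Fin n → ℕ} {ι : Fin 3 → Fin n}
    (hι : Function.Injective ι) (hd : d' + δ = d) (hsum : ∑ j, m (ι j) = d + δ)
    (hlow : ∀ j, δ ≤ m (ι j) + 1)
    {q q' : Fin n → Fin 3 → ℂ}
    (hq : ∀ j, q (ι j) = Pi.single j 1) (hq' : ∀ j, q' (ι j) = Pi.single j 1)
    (hx : ∀ l, l ∉ Finset.univ.image ι → (∀ c, q l c ≠ 0) ∧ q' l = sg (q l))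
    {G : R3} {e' : ℕ} {a' : Fin n → ℕ} (hG : Irreducible G) (he : G.IsHomogeneous e')
    (ha : ∀ i, G ∈ mi (q' i) ^ a' i ∧ G ∉ mi (q' i) ^ (a' i + 1))
    (hl : ∀ i, cm m ι δ i = 0 → a' i = 0)
    (hneg : Neg d' (cm m ι δ) e' a') :
    ∃ F : R3, ∃ e : ℕ, ∃ a : Fin n → ℕ, Irreducible F ∧ F.IsHomogeneous e ∧
      (∀ i, F ∈ mi (q i) ^ a i ∧ F ∉ mi (q i) ^ (a i + 1)) ∧ Neg d m e a := by
  have hX := fun j => alt_not_dvd' hι hd hsum hlow hq' hx hG he ha hl hneg j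
  have hG0 : G ≠ 0 := hG.ne_zero
  have hmul : ∀ j, (∀ s ∈ G.support, s j + a' (ι j) ≤ e') ∧
      ∃ s ∈ G.support, s j + a' (ι j) = e' := by
    intro j
    obtain ⟨h1, h2⟩ := ha (ι j)
    rw [hq' j] at h1 h2
    exact alt_mult he h1 h2
  obtain ⟨ν, hνdef⟩ : ∃ ν : Fin 3 →₀ ℕ, ∀ j, ν j + a' (ι j) = e' := by
    refine ⟨Finsupp.equivFunOnFinite.symm fun j => e' - a' (ι j), fun j => ?_⟩
    obtain ⟨s, hs, h⟩ := (hmul j).2
    simp only [Finsupp.equivFunOnFinite_symm_apply_apply]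
    omega
  have hν : ∀ s ∈ G.support, s ≤ ν := by
    intro s hs j
    have := (hmul j).1 s hs
    have := hνdef j
    omega
  have hmax : ∀ j, ∃ s ∈ G.support, s j = ν j := by
    intro j
    obtain ⟨s, hs, h⟩ := (hmul j).2
    have := hνdef j
    exact ⟨s, hs, by omega⟩
  have hzero : ∀ j, ∃ s ∈ G.support, s j = 0 := by
    intro j
    by_contra h
    push Not at h
    exact hX j (alt_dvd h)
  obtain ⟨e, hee⟩ : ∃ e, e' + e = ν 0 + ν 1 + ν 2 := by
    obtain ⟨s, hs, -⟩ := hzero 0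
    have h1 := alt_degree he hs
    have h2 := hν s hs
    have := h2 0
    have := h2 1
    have := h2 2
    exact ⟨ν 0 + ν 1 + ν 2 - e', by omega⟩
  obtain ⟨hFirr, -⟩ := rev_irreducible hee hG he hν hmax hX
  have hFhom : (rev ν G).IsHomogeneous e := rev_isHomogeneous hee he hν
  have hFν : ∀ s ∈ (rev ν G).support, s ≤ ν := support_rev_le
  have hFmax : ∀ j, ∃ s ∈ (rev ν G).support, s j = ν j := by
    intro j
    obtain ⟨s, hs, h⟩ := hzero j
    refine ⟨ν - s, ?_, ?_⟩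
    · rw [MvPolynomial.mem_support_iff, coeff_rev hν _ tsub_le_self,
        tsub_tsub_cancel_of_le (hν s hs)]
      exact MvPolynomial.mem_support_iff.1 hs
    · rw [Finsupp.tsub_apply, h, Nat.sub_zero]
  have hνe : ∀ j, ν j ≤ e := by
    intro j
    obtain ⟨s, hs, h⟩ := hFmax j
    have := alt_degree hFhom hs
    rw [← h]
    fin_cases j
    · show s 0 ≤ e
      omega
    · show s 1 ≤ e
      omega
    · show s 2 ≤ e
      omega
  have hsumν : e + ∑ j, a' (ι j) = 2 * e' := by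
    rw [Fin.sum_univ_three]
    have := hνdef 0
    have := hνdef 1
    have := hνdef 2
    omega
  refine ⟨rev ν G, e, fun i => if i ∈ Finset.univ.image ι then e + a' i - e' else a' i,
    hFirr, hFhom, ?_, ?_⟩
  · intro i
    by_cases hi : i ∈ Finset.univ.image ι
    · obtain ⟨j, -, rfl⟩ := Finset.mem_image.1 hi
      simp only [if_pos hi]
      rw [hq j]
      have h1 := hνdef j
      have h2 := hνe j
      constructor
      · rw [mem_mi_single_iff hFhom]
        intro s hs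
        have := hFν s hs j
        omega
      · rw [mem_mi_single_iff hFhom]
        intro h
        obtain ⟨s, hs, h3⟩ := hFmax j
        have := h s hs
        omega
    · simp only [if_neg hi]
      obtain ⟨h1, h2⟩ := hx i hi
      obtain ⟨h3, h4⟩ := ha i
      rw [h2] at h3 h4
      refine ⟨rev_mem he hν h1 h3, fun h => h4 ?_⟩
      have := rev_mem' hFhom hFν h1 h
      rwa [rev_rev hν] at this
  · refine neg_cm' hι hd hsum hlow hl hneg hsumν ?_ ?_
    · intro j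
      have hi : ι j ∈ Finset.univ.image ι := Finset.mem_image_of_mem ι (Finset.mem_univ j)
      simp only [if_pos hi]
      have h1 := hνdef j
      have h2 := hνe j
      omega
    · intro l hl
      simp only [if_neg hl]

end Pool.MP_70e04f_ag.Cre
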