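import Pool.Agent.Lib_MP_70e04f_gon.GDefs

/-!
# Systems in standard form with at most nine multiple points and simple points
-/

set_option autoImplicit false

namespace Pool.MP_70e04f_ag.Strip

open MvPolynomial

theorem GExp.exists_EXP {n : ℕ} {d : ℕ} {m : Fin n → ℕ} (h : GExp d m) :
    ∃ p : Fin n → Fin 2 → ℂ, EXP d m p := by
  obtain ⟨g, hg, h⟩ := h
  obtain ⟨x, hx⟩ : ∃ x : Fin n × Fin 2 → ℂ, MvPolynomial.eval x g ≠ 0 := by
    by_contra hcon
    push Not at hcon
    exact hg (MvPolynomial.funext fun x => by rw [hcon x, map_zero])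
  refine ⟨fun i c => x (i, c), ?_⟩
  have h1 := h (fun i c => x (i, c)) hx
  unfold EXP
  have h2 : Pt ℂ d ⊓ sp (Iz (fun i c => x (i, c)) m) =
      MvPolynomial.restrictTotalDegree (Fin 2) ℂ d ⊓
        ⨅ i : Fin n, Submodule.restrictScalars ℂ
          ((RingHom.ker (MvPolynomial.eval ((fun i c => x (i, c)) i)) :
            Ideal (MvPolynomial (Fin 2) ℂ)) ^ m i) := by
    ext f
    rw [Submodule.mem_inf, Submodule.mem_inf, mem_sp, mem_Iz, Submodule.mem_iInf]
    rfl
  rw [h2]
  exact h1.le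

/-- Systems in standard form with at most nine multiple points and simple points. -/
theorem gexp_simple {n d : ℕ} (mm : Fin n → ℕ) (α : Fin 9 → Fin n) (hα : Function.Injective α)
    (h1 : ∀ i, i ∉ Set.range α → mm i ≤ 1)
    (h3 : ∀ ι : Fin 3 → Fin n, Function.Injective ι → ∑ j, mm (ι j) ≤ d) : GExp d mm := by
  have h9 : GExp d (fun a : Fin 9 => mm (α a)) :=
    Cre.base_nine (fun a : Fin 9 => mm (α a)) id Function.injective_id
      (fun i hi => absurd ⟨i, rfl⟩ hi) (fun ι hι => h3 (fun j => α (ι j)) (hα.comp hι))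
  obtain ⟨p', hp'⟩ := h9.exists_EXP
  obtain ⟨p, hp⟩ := hp'.extend α hα h1
  exact gexp_of_good d mm p hp.good

end Pool.MP_70e04f_ag.Strip
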