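import Pool.Agent.Lib_MP_70e04f_strip.SMB
import Pool.Agent.Lib_MP_70e04f_strip.SExp
import Pool.Agent.Lib_MP_70e04f_cre.Defs

/-!
# A `(-1)`-curve which meets an effective system negatively does not pass through the points of
multiplicity zero
-/

set_option autoImplicit false

namespace Pool.MP_70e04f_ag.Strip

open MvPolynomial

/-- If a system which contains a curve meets the `(-1)`-curve `f` in at most `-2`, then `f` does not
pass through the points of multiplicity zero of the system: write the curve as `f ^ k * H`, `f ∤ H`;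
then `∑ a_i mult_i(H) ≤ e deg H`, and `d e - ∑ a_i m_i ≥ k (e ^ 2 - ∑_{i ≠ j} a_i ^ 2) =
k (a_j ^ 2 - 1) ≥ 0`. -/
theorem light_eff {n d e : ℕ} {m a : Fin n → ℕ} {p : Fin n → Fin 2 → ℂ}
    (hp : Function.Injective p) {f G : A2 ℂ} (hf : Irreducible f) (he : f.totalDegree = e)
    (ha : ∀ i, f ∈ mp (p i) ^ a i ∧ f ∉ mp (p i) ^ (a i + 1)) (hG : G ≠ 0)
    (hGd : G.totalDegree ≤ d) (hGm : ∀ i, G ∈ mp (p i) ^ m i) (h : Cre.Neg d m e a) {j : Fin n}
    (hj : m j = 0) : a j = 0 := by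
  by_contra hne
  obtain ⟨h1, -, h3⟩ := h
  have hmu : ∀ i, mu (p i) f = a i := by
    intro i
    have e1 := (mem_iff_le_mu hf.ne_zero _).1 (ha i).1
    have e2 : ¬ a i + 1 ≤ mu (p i) f := fun hh => (ha i).2 ((mem_iff_le_mu hf.ne_zero _).2 hh)
    omega
  have hfin : FiniteMultiplicity f G := FiniteMultiplicity.of_prime_left hf.prime hG
  obtain ⟨H, hH, hfH⟩ := hfin.exists_eq_pow_mul_and_not_dvd
  set k := multiplicity f G with hk
  have hH0 : H ≠ 0 := by
    rintro rfl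
    exact hfH (dvd_zero f)
  have hfk : f ^ k ≠ 0 := pow_ne_zero _ hf.ne_zero
  have hmupow : ∀ (i : Fin n) (r : ℕ), mu (p i) (f ^ r) = r * a i := by
    intro i r
    induction r with
    | zero =>
      rw [pow_zero, Nat.zero_mul]
      have := mu_C (q := p i) (c := (1 : ℂ)) one_ne_zero
      rwa [C_1] at this
    | succ r ih =>
      rw [pow_succ, mu_mul (pow_ne_zero _ hf.ne_zero) hf.ne_zero, ih, hmu]
      ring
  have hmuG : ∀ i, m i ≤ k * a i + mu (p i) H := by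
    intro i
    have e1 := (mem_iff_le_mu hG _).1 (hGm i)
    rw [hH, mu_mul hfk hH0, hmupow] at e1
    exact e1
  have hdegpow : ∀ r : ℕ, (f ^ r).totalDegree = r * e := by
    intro r
    induction r with
    | zero => rw [pow_zero, Nat.zero_mul, totalDegree_one]
    | succ r ih =>
      rw [pow_succ, totalDegree_mul_of_isDomain (pow_ne_zero _ hf.ne_zero) hf.ne_zero, ih, he]
      ring
  have hdeg : k * e + H.totalDegree ≤ d := by
    have e1 : (f ^ k * H).totalDegree = k * e + H.totalDegree := by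
      rw [totalDegree_mul_of_isDomain hfk hH0, hdegpow]
    rw [← hH] at e1
    omega
  have hbez := mulbez hp hf hfH (fun i => mu (p i) H)
    (Ideal.mem_sup_left (mem_Iz.2 fun i => (mem_iff_le_mu hH0 _).2 le_rfl))
  rw [he] at hbez
  have hbez' : ∑ i, (a i : ℤ) * (mu (p i) H : ℤ) ≤ (e : ℤ) * H.totalDegree := by
    have : ∑ i, a i * mu (p i) H ≤ e * H.totalDegree := by
      refine le_trans (le_of_eq ?_) hbez
      exact Finset.sum_congr rfl fun i _ => by rw [hmu]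
    exact_mod_cast this
  -- compare the sums
  have hsum : ∑ i, (a i : ℤ) * (m i : ℤ) ≤
      ∑ i, (a i : ℤ) * (mu (p i) H : ℤ) + k * (∑ i, (a i : ℤ) ^ 2 - (a j : ℤ) ^ 2) := by
    rw [← Finset.add_sum_erase _ _ (Finset.mem_univ j),
      ← Finset.add_sum_erase Finset.univ (fun i => (a i : ℤ) * (mu (p i) H : ℤ))
        (Finset.mem_univ j),
      ← Finset.add_sum_erase Finset.univ (fun i => (a i : ℤ) ^ 2) (Finset.mem_univ j)]
    have e1 : ∑ i ∈ Finset.univ.erase j, (a i : ℤ) * (m i : ℤ) ≤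
        ∑ i ∈ Finset.univ.erase j, (a i : ℤ) * (mu (p i) H : ℤ) +
          k * ∑ i ∈ Finset.univ.erase j, (a i : ℤ) ^ 2 := by
      rw [Finset.mul_sum, ← Finset.sum_add_distrib]
      refine Finset.sum_le_sum fun i _ => ?_
      have e2 : (m i : ℤ) ≤ k * a i + mu (p i) H := by exact_mod_cast hmuG i
      have e3 : (0 : ℤ) ≤ a i := Int.natCast_nonneg _
      nlinarith [mul_le_mul_of_nonneg_left e2 e3]
    have e4 : (0 : ℤ) ≤ (a j : ℤ) * (mu (p j) H : ℤ) := by positivity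
    rw [hj]
    push_cast
    linarith
  have haj : (1 : ℤ) ≤ a j := by
    have : 1 ≤ a j := Nat.one_le_iff_ne_zero.2 hne
    exact_mod_cast this
  have hdeg' : (k : ℤ) * e + H.totalDegree ≤ d := by exact_mod_cast hdeg
  have he0 : (0 : ℤ) ≤ e := Int.natCast_nonneg _
  have hk0 : (0 : ℤ) ≤ k := Int.natCast_nonneg _
  have e5 : (e : ℤ) * ((k : ℤ) * e + H.totalDegree) ≤ e * d := mul_le_mul_of_nonneg_left hdeg' he0
  have e6 : (0 : ℤ) ≤ k * ((a j : ℤ) ^ 2 - 1) := mul_nonneg hk0 (by nlinarith)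
  have e7 : (k : ℤ) * (∑ i, (a i : ℤ) ^ 2) = k * ((e : ℤ) ^ 2 + 1) := by
    have : ∑ i, (a i : ℤ) ^ 2 = (e : ℤ) ^ 2 + 1 := by linarith
    rw [this]
  nlinarith

/-- The dimension is at least the expected one. -/
theorem low_dim {n d : ℕ} {m : Fin n → ℕ} {p : Fin n → Fin 2 → ℂ} (hp : Function.Injective p) :
    ((d : ℤ) + 1) * ((d : ℤ) + 2) - ∑ i, (m i : ℤ) * ((m i : ℤ) + 1) ≤
      2 * (Module.finrank ℂ ↥(Pt ℂ d ⊓ sp (Iz p m)) : ℤ) := by
  have h1 := cod_add (finC_Iz hp m) d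
  have h2 := two_finrank_Pt (k := ℂ) d
  have h3 := len_Iz hp m
  have h4 : ((2 * len (Iz p m) : ℕ) : ℤ) = ∑ i, (m i : ℤ) * ((m i : ℤ) + 1) := by
    rw [h3]; push_cast; rfl
  have h5 : ((2 * Module.finrank ℂ ↥(Pt ℂ d) : ℕ) : ℤ) = ((d : ℤ) + 1) * ((d : ℤ) + 2) := by
    rw [h2]; push_cast; rfl
  rw [← h4, ← h5]
  push_cast
  omega

end Pool.MP_70e04f_ag.Strip
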