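import Pool.Agent.Lib_MP_70e04f_lit.LHom
import Pool.Agent.Lib_MP_70e04f_lit.LAlt
import Pool.Agent.Lib_MP_70e04f_lit.LLight

/-!
# Invariance of the conjecture under quadratic transformations, without a condition on the
self-intersection

The proof of `SQ.cremona` is the one of `Lib_MP_70e04f_cre/ConfS.lean`.
-/

set_option autoImplicit false

namespace Pool.MP_70e04f_ag.Cre

open MvPolynomial

/-- The standard quadratic transformation. -/
theorem HSQ.cremona {n d d' δ : ℕ} {R : ℕ → Prop} {P : ℕ → (Fin n → ℕ) → Prop} {m : Fin n → ℕ}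
    {ι : Fin 3 → Fin n}
    (hι : Function.Injective ι) (hd : d' + δ = d) (hsum : ∑ j, m (ι j) = d + δ)
    (hlow : ∀ j, δ ≤ m (ι j) + 1) (hup : ∀ j, m (ι j) ≤ d)
    (hP : ∀ e a, P e a → Neg d' (cm m ι δ) e a ∧ ∀ i, cm m ι δ i = 0 → a i = 0)
    {q q' : Fin n → Fin 3 → ℂ}
    (hq : ∀ j, q (ι j) = Pi.single j 1) (hq' : ∀ j, q' (ι j) = Pi.single j 1)
    (hx : ∀ l, l ∉ Finset.univ.image ι → (∀ c, q l c ≠ 0) ∧ q' l = sg (q l))
    (h : HSQ R P d' (cm m ι δ) q') : HSQ R (Neg d m) d m q := by
  rcases h with h | ⟨G, e', a', hG, he, ha, hneg⟩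
  · left
    rw [finrank_cremona hι hd hsum hlow hup hq hq' hx] at h
    exact h
  · right
    obtain ⟨h1, h2⟩ := hP e' a' hneg
    exact alt_cremona' hι hd hsum hlow hq hq' hx hG he ha h2 h1

theorem SQ.cremona {n d d' δ : ℕ} {R : ℕ → Prop} {P : ℕ → (Fin n → ℕ) → Prop} {m : Fin n → ℕ}
    {ι : Fin 3 → Fin n}
    (hι : Function.Injective ι) (hd : d' + δ = d) (hsum : ∑ j, m (ι j) = d + δ)
    (hlow : ∀ j, δ ≤ m (ι j) + 1) (hup : ∀ j, m (ι j) ≤ d)
    (hP : ∀ e a, P e a → Neg d' (cm m ι δ) e a ∧ ∀ i, cm m ι δ i = 0 → a i = 0)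
    {p : Fin n → Fin 2 → ℂ} (hp : Good ι p) (h : SQ R P d' (cm m ι δ) (crm ι p)) :
    SQ R (Neg d m) d m p := by
  classical
  obtain ⟨hD, hl⟩ := hp
  have h2 := (HSQ_of_SQ h).mat (mat ι p).adjugate (by
    rw [Matrix.det_adjugate]
    exact pow_ne_zero _ hD)
  let c1 : Fin n → ℂ := fun i => if i ∈ Finset.univ.image ι then (mat ι p).det⁻¹ else
    img ι p i 2 / (mat ι p).det
  have hc1 : ∀ i, c1 i ≠ 0 := by
    intro i
    change (if i ∈ Finset.univ.image ι then (mat ι p).det⁻¹ else
      img ι p i 2 / (mat ι p).det) ≠ 0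
    by_cases hi : i ∈ Finset.univ.image ι
    · rw [if_pos hi]
      exact inv_ne_zero hD
    · rw [if_neg hi]
      exact div_ne_zero (hl i hi).2 hD
  have h3 := h2.smul c1 hc1
  let c2 : Fin n → ℂ := fun i => if i ∈ Finset.univ.image ι then (mat ι p).det⁻¹ else 1
  have hc2 : ∀ i, c2 i ≠ 0 := by
    intro i
    change (if i ∈ Finset.univ.image ι then (mat ι p).det⁻¹ else (1 : ℂ)) ≠ 0
    by_cases hi : i ∈ Finset.univ.image ι
    · rw [if_pos hi]
      exact inv_ne_zero hD
    · rw [if_neg hi]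
      exact one_ne_zero
  have hmem : ∀ j, ι j ∈ Finset.univ.image ι := fun j =>
    Finset.mem_image_of_mem ι (Finset.mem_univ j)
  have h4 := HSQ.cremona hι hd hsum hlow hup hP (q := fun i => c2 i • bar ι p i)
    (q' := fun i => c1 i • (mat ι p).adjugate.mulVec (hat (crm ι p i)))
    (by
      intro j
      change (if ι j ∈ Finset.univ.image ι then (mat ι p).det⁻¹ else (1 : ℂ)) • bar ι p (ι j) = _
      rw [if_pos (hmem j), confS_col, smul_smul, inv_mul_cancel₀ hD, one_smul])
    (by
      intro j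
      change (if ι j ∈ Finset.univ.image ι then (mat ι p).det⁻¹ else
        img ι p (ι j) 2 / (mat ι p).det) • (mat ι p).adjugate.mulVec (hat (crm ι p (ι j))) = _
      have e1 : crm ι p (ι j) = p (ι j) := by
        unfold crm
        rw [if_pos (hmem j)]
      rw [if_pos (hmem j), e1]
      have e2 := confS_col ι p j
      unfold bar at e2
      rw [e2, smul_smul, inv_mul_cancel₀ hD, one_smul])
    (by
      intro l hl'
      obtain ⟨k1, k2⟩ := hl l hl'
      have e0 : c2 l • bar ι p l = bar ι p l := by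
        change (if l ∈ Finset.univ.image ι then (mat ι p).det⁻¹ else (1 : ℂ)) • bar ι p l = _
        rw [if_neg hl', one_smul]
      have e1 : hat (crm ι p l) = (img ι p l 2)⁻¹ • img ι p l := by
        unfold crm
        rw [if_neg hl']
        funext c
        fin_cases c
        · change img ι p l 0 / img ι p l 2 = (img ι p l 2)⁻¹ * img ι p l 0
          rw [div_eq_inv_mul]
        · change img ι p l 1 / img ι p l 2 = (img ι p l 2)⁻¹ * img ι p l 1
          rw [div_eq_inv_mul]
        · change (1 : ℂ) = (img ι p l 2)⁻¹ * img ι p l 2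
          rw [inv_mul_cancel₀ k2]
      refine ⟨fun c => ?_, ?_⟩
      · change (c2 l • bar ι p l) c ≠ 0
        rw [e0]
        exact k1 c
      · change c1 l • (mat ι p).adjugate.mulVec (hat (crm ι p l)) = sg (c2 l • bar ι p l)
        rw [e0, e1, Matrix.mulVec_smul]
        have e3 : (mat ι p).adjugate.mulVec (img ι p l) = (mat ι p).det • sg (bar ι p l) := by
          unfold img
          rw [Matrix.mulVec_mulVec, Matrix.adjugate_mul, Matrix.smul_mulVec, Matrix.one_mulVec]
        change (if l ∈ Finset.univ.image ι then (mat ι p).det⁻¹ else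
          img ι p l 2 / (mat ι p).det) • _ = _
        rw [if_neg hl', e3, smul_smul, smul_smul]
        have e4 : img ι p l 2 / (mat ι p).det * (img ι p l 2)⁻¹ * (mat ι p).det = 1 := by
          field_simp
        rw [e4, one_smul]) h3
  have h5 := h4.mat (mat ι p) hD
  have h6 := h5.smul (fun i => (c2 i * (mat ι p).det)⁻¹)
    (fun i => inv_ne_zero (mul_ne_zero (hc2 i) hD))
  apply S_of_HSQ
  have e : (fun i => hat (p i)) = (fun i => (fun i => (c2 i * (mat ι p).det)⁻¹) i •
      (fun i => (mat ι p).mulVec ((fun i => c2 i • bar ι p i) i)) i) := by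
    funext i
    change hat (p i) = (c2 i * (mat ι p).det)⁻¹ • (mat ι p).mulVec (c2 i • bar ι p i)
    have e3 : (mat ι p).mulVec (bar ι p i) = (mat ι p).det • hat (p i) := by
      unfold bar
      rw [Matrix.mulVec_mulVec, Matrix.mul_adjugate, Matrix.smul_mulVec, Matrix.one_mulVec]
    rw [Matrix.mulVec_smul, e3, smul_smul, smul_smul, mul_assoc,
      inv_mul_cancel₀ (mul_ne_zero (hc2 i) hD), one_smul]
  rw [e]
  exact h6

/-- The conjecture at a configuration of points follows from the conjecture at the transformed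
configuration. -/
theorem S.cremona' {n d d' δ : ℕ} {m : Fin n → ℕ} {ι : Fin 3 → Fin n}
    (hι : Function.Injective ι) (hd : d' + δ = d) (hsum : ∑ j, m (ι j) = d + δ)
    (hlow : ∀ j, δ ≤ m (ι j) + 1) (hup : ∀ j, m (ι j) ≤ d)
    {p : Fin n → Fin 2 → ℂ} (hp : Good ι p) (hinj : Function.Injective p)
    (hinj' : Function.Injective (crm ι p)) (h : S d' (cm m ι δ) (crm ι p)) : S d m p := by
  rcases h with h | ⟨f, e, a, hf, he, ha, hneg⟩
  · have h1 : SQ (Dim d' (cm m ι δ)) (fun _ _ => False) d' (cm m ι δ) (crm ι p) := Or.inl h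
    rcases h1.cremona hι hd hsum hlow hup (fun _ _ h => h.elim) hp with h2 | h2
    · exact Or.inl ((dim_cm hι hd hsum hlow _).1 h2)
    · exact Or.inr h2
  · by_cases hl : ∀ i, cm m ι δ i = 0 → a i = 0
    · have h1 : SQ (fun _ => False)
          (fun e a => Neg d' (cm m ι δ) e a ∧ ∀ i, cm m ι δ i = 0 → a i = 0) d' (cm m ι δ)
          (crm ι p) := Or.inr ⟨f, e, a, hf, he, ha, hneg, hl⟩
      rcases h1.cremona hι hd hsum hlow hup (fun _ _ h => h) hp with h2 | h2
      · exact h2.elim
      · exact Or.inr h2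
    · push Not at hl
      obtain ⟨i, hi, hai⟩ := hl
      have hbot : V d' (cm m ι δ) (crm ι p) = ⊥ := by
        rw [Submodule.eq_bot_iff]
        intro G hG
        by_contra hG0
        obtain ⟨h1, h2⟩ := CRHS_mem_V.1 hG
        exact hai (Strip.light_eff hinj' hf he ha hG0 h1 h2 hneg hi)
      have h1 : SQ (fun N => N = 0) (fun _ _ => False) d' (cm m ι δ) (crm ι p) := by
        left
        rw [hbot, finrank_bot]
      rcases h1.cremona hι hd hsum hlow hup (fun _ _ h => h.elim) hp with h2 | h2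
      · left
        have h3 := Strip.low_dim (d := d) (m := m) hinj
        have h4 : Strip.Pt ℂ d ⊓ Strip.sp (Strip.Iz p m) = V d m p := by
          ext g
          rw [CRHS_mem_V, Submodule.mem_inf, Strip.mem_Pt, Strip.mem_sp, Strip.mem_Iz]
          rfl
        rw [h4, h2] at h3
        rw [h2]
        unfold Dim
        rw [max_eq_left]
        · simp
        · simpa using h3
      · exact Or.inr h2

end Pool.MP_70e04f_ag.Cre
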