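import Pool.Agent.Lib_MP_70e04f_lit.LMain

/-!
# The conjecture outside of the strip of width one seventh: all systems of the first side (with both
alternatives), and the systems in standard form of the other side and of the thin strip
-/

set_option autoImplicit false

namespace Pool.MP_70e04f_ag.Cre

open MvPolynomial

/-- Three points have at most the sum of the three largest multiplicities. -/
theorem three_le10 {n d : ℕ} (mult : Fin n → ℕ) (α : Fin 10 → Fin n)
    (hα : Function.Injective α) (hanti : Antitone (fun j => mult (α j)))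
    (hother : ∀ i, i ∉ Set.range α → mult i ≤ mult (α 9))
    (hstd : mult (α 0) + mult (α 1) + mult (α 2) ≤ d) (ι : Fin 3 → Fin n)
    (hι : Function.Injective ι) : ∑ j, mult (ι j) ≤ d := by
  refine Strip.three_le d (mult (α (8 : Fin 9).castSucc)) mult (fun s : Fin 9 => α s.castSucc)
    (hα.comp (Fin.castSucc_injective _))
    (fun a b hab => hanti (Fin.castSucc_le_castSucc_iff.2 hab)) le_rfl ?_ hstd ι hι
  intro i hi
  have h89 : mult (α 9) ≤ mult (α (8 : Fin 9).castSucc) := hanti (by decide)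
  by_cases h : i ∈ Set.range α
  · obtain ⟨j, rfl⟩ := h
    rcases Fin.eq_castSucc_or_eq_last j with ⟨j', rfl⟩ | rfl
    · exact absurd ⟨j', rfl⟩ hi
    · exact h89
  · exact (hother _ h).trans h89

theorem seventh (n d D : ℕ) (mult : Fin n → ℕ) (α : Fin 10 → Fin n)
    (hα : Function.Injective α) (hanti : Antitone (fun j => mult (α j)))
    (hother : ∀ i, i ∉ Set.range α → mult i ≤ mult (α 9))
    (h : mult (α 9) ≤ 1 ∨
      7 * ∑ i with 2 ≤ mult i, (mult i + 1) ^ 2 + (mult (α 9) + 1) ^ 2 < 7 * (d + 3) ^ 2 ∨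
      mult (α 0) + mult (α 1) + mult (α 2) ≤ d ∧ ∃ N, 0 < N ∧
        ((∑ i with 2 ≤ mult i, (mult i + 1) ^ 2 + N = (d + 3) ^ 2 ∧
          (5000 * (mult (α 9) + 1) ^ 4 ≤
              N * ∑ i with 2 ≤ mult i ∧ ∀ j : Fin 9, i ≠ α j.castSucc, (mult i + 1) ^ 2 ∨
            15000 * (mult (α 9) + 1) ^ 5 ≤ N ^ 2 * (d + 3))) ∨
        (∑ i, mult i ^ 2 = d ^ 2 + N ∧
          (mult (α 9) ^ 2 ≤ 7 * N ∨
            5000 * mult (α 9) ^ 4 ≤
              N * ∑ i with ∀ j : Fin 9, i ≠ α j.castSucc, mult i ^ 2 ∨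
            15000 * mult (α 9) ^ 5 ≤ N ^ 2 * d))))
    (hD : D = d ∨ D ≤ d ∧ (d + 1) * (d + 2) ≤ ∑ i, mult i * (mult i + 1)) :
    Dich.SHGH D mult ∧ (mult (α 0) + mult (α 1) + mult (α 2) ≤ d → Strip.GExp D mult) := by
  classical
  have hα9 : Function.Injective (fun s : Fin 9 => α s.castSucc) :=
    hα.comp (Fin.castSucc_injective _)
  have hout : ∀ i, i ∉ Set.range (fun s : Fin 9 => α s.castSucc) → mult i ≤ mult (α 9) := by
    intro i hi
    by_cases h : i ∈ Set.range α
    · obtain ⟨j, rfl⟩ := h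
      rcases Fin.eq_castSucc_or_eq_last j with ⟨j', rfl⟩ | rfl
      · exact absurd ⟨j', rfl⟩ hi
      · exact le_refl _
    · exact hother _ h
  have hle : ∀ {mm : Fin n → ℕ}, Strip.GExp d mm →
      (D = d ∨ D ≤ d ∧ (d + 1) * (d + 2) ≤ ∑ i, mm i * (mm i + 1)) → Strip.GExp D mm := by
    intro mm hg hD
    rcases hD with rfl | ⟨h3, h4⟩
    · exact hg
    · exact hg.le h3 h4
  have hsh : Strip.GExp D mult → Dich.SHGH D mult := by
    rintro ⟨g, hg, h⟩
    exact ⟨g, hg, fun p hp => Or.inl (h p hp)⟩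
  -- the expected dimension in standard form
  have hE : mult (α 0) + mult (α 1) + mult (α 2) ≤ d → Strip.GExp D mult := by
    intro hstd
    by_cases h1 : mult (α 9) ≤ 1
    · exact hle (Strip.gexp_simple mult _ hα9 (fun i hi => (hout i hi).trans h1)
        (three_le10 mult α hα hanti hother hstd)) hD
    rcases h with h | h | ⟨-, N, hN, h⟩
    · exact absurd h h1
    · obtain ⟨N, hN⟩ : ∃ N, ∑ i with 2 ≤ mult i, (mult i + 1) ^ 2 + N = (d + 3) ^ 2 :=
        ⟨_, Nat.add_sub_of_le (by omega)⟩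
      exact Strip.gen_thin2 n d D N mult α hα hanti (by omega) hother hstd (by
        rcases Nat.eq_zero_or_pos N with h0 | h0
        · subst h0
          omega
        · exact h0) (Or.inl ⟨hN, Or.inl (by omega)⟩) hD
    · refine Strip.gen_thin2 n d D N mult α hα hanti (by omega) hother hstd hN ?_ hD
      rcases h with ⟨h2, h3⟩ | h
      · exact Or.inl ⟨h2, Or.inr h3⟩
      · exact Or.inr h
  refine ⟨?_, hE⟩
  -- the conjecture for systems of the first side
  have hA : ((∀ i, i ∉ Set.range (fun s : Fin 9 => α s.castSucc) → mult i ≤ 1) ∨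
      (∀ i, i ∉ Set.range (fun s : Fin 9 => α s.castSucc) → mult i + 1 ≤ mult (α 9) + 1) ∧
      7 * ∑ i with 2 ≤ mult i, (mult i + 1) ^ 2 + (mult (α 9) + 1) ^ 2 < 7 * (d + 3) ^ 2) →
      Dich.SHGH D mult := by
    intro h'
    have hd := shgh_strip7 d mult _ hα9 h'
    rcases hD with rfl | ⟨h3, h4⟩
    · exact hd
    · exact shgh_le hd h3 h4
  rcases h with h | h | ⟨hstd, -⟩
  · exact hA (Or.inl fun i hi => (hout i hi).trans h)
  · exact hA (Or.inr ⟨fun i hi => Nat.succ_le_succ (hout i hi), h⟩)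
  · exact hsh (hE hstd)

end Pool.MP_70e04f_ag.Cre
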