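import Pool.Agent.Lib_MP_70e04f_cre.ConfS

/-!
# Quadratic transformations: the alternative with arbitrary properties
-/

set_option autoImplicit false

namespace Pool.MP_70e04f_ag.Cre

open MvPolynomial

/-- The dimension has the property `R`, or there is an irreducible curve with a class with the
property `P`. -/
def SQ {n : ℕ} (R : ℕ → Prop) (P : ℕ → (Fin n → ℕ) → Prop) (d : ℕ) (m : Fin n → ℕ)
    (p : Fin n → Fin 2 → ℂ) : Prop :=
  R (Module.finrank ℂ ↥(V d m p)) ∨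
    ∃ f : R2, ∃ e : ℕ, ∃ a : Fin n → ℕ, Irreducible f ∧ f.totalDegree = e ∧
      (∀ i, f ∈ mi (p i) ^ a i ∧ f ∉ mi (p i) ^ (a i + 1)) ∧ P e a

/-- The same with homogeneous coordinates. -/
def HSQ {n : ℕ} (R : ℕ → Prop) (P : ℕ → (Fin n → ℕ) → Prop) (d : ℕ) (m : Fin n → ℕ)
    (q : Fin n → Fin 3 → ℂ) : Prop :=
  R (Module.finrank ℂ ↥(W d m q)) ∨
    ∃ F : R3, ∃ e : ℕ, ∃ a : Fin n → ℕ, Irreducible F ∧ F.IsHomogeneous e ∧
      (∀ i, F ∈ mi (q i) ^ a i ∧ F ∉ mi (q i) ^ (a i + 1)) ∧ P e a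

theorem HSQ_of_SQ {n d : ℕ} {R : ℕ → Prop} {P : ℕ → (Fin n → ℕ) → Prop} {m : Fin n → ℕ}
    {p : Fin n → Fin 2 → ℂ} (h : SQ R P d m p) : HSQ R P d m (fun i => hat (p i)) := by
  rcases h with h | ⟨f, e, a, hf, he, ha, hneg⟩
  · left
    rw [finrank_W_hat]
    exact h
  · right
    refine ⟨hom e f, e, a, hom_irreducible hf he, hom_isHomogeneous he.le, fun i => ?_, hneg⟩
    rw [CRHS_hom_mem_iff he.le, CRHS_hom_mem_iff he.le]
    exact ha i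

theorem S_of_HSQ {n d : ℕ} {R : ℕ → Prop} {m : Fin n → ℕ} {p : Fin n → Fin 2 → ℂ}
    (h : HSQ R (Neg d m) d m (fun i => hat (p i))) : SQ R (Neg d m) d m p := by
  rcases h with h | ⟨F, e, a, hF, he, ha, hneg⟩
  · left
    rw [finrank_W_hat] at h
    exact h
  · right
    obtain ⟨h1, h2⟩ := deh_irreducible hF he (CRHS_not_dvd hF he (fun i => (ha i).1) hneg)
    refine ⟨deh F, e, a, h1, h2, fun i => ?_, hneg⟩
    rw [CRHS_deh_mem_iff he, CRHS_deh_mem_iff he]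
    exact ha i

/-- The alternative depends only on the ideals. -/
theorem HSQ.transfer {n d : ℕ} {R : ℕ → Prop} {P : ℕ → (Fin n → ℕ) → Prop} {m : Fin n → ℕ}
    {q q' : Fin n → Fin 3 → ℂ}
    (φ : R3 ≃ₐ[ℂ] R3) (h1 : ∀ F : R3, ∀ e, (φ F).IsHomogeneous e ↔ F.IsHomogeneous e)
    (h2 : ∀ F : R3, ∀ e, F.IsHomogeneous e → ∀ i j, φ F ∈ mi (q' i) ^ j ↔ F ∈ mi (q i) ^ j)
    (h : HSQ R P d m q) : HSQ R P d m q' := by
  rcases h with h | ⟨F, e, a, hF, he, ha, hneg⟩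
  · left
    have e1 : W d m q' = (W d m q).map (φ.toLinearEquiv : R3 →ₗ[ℂ] R3) := by
      ext G
      rw [Submodule.mem_map, CRLIN_mem_W]
      constructor
      · rintro ⟨hG, hG'⟩
        refine ⟨φ.symm G, ?_, φ.apply_symm_apply G⟩
        have h3 : (φ.symm G).IsHomogeneous d := by
          rw [← h1, φ.apply_symm_apply]
          exact hG
        refine CRLIN_mem_W.mpr ⟨h3, fun i => ?_⟩
        rw [← h2 _ d h3, φ.apply_symm_apply]
        exact hG' i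
      · rintro ⟨F, hF, rfl⟩
        obtain ⟨hF1, hF2⟩ := CRLIN_mem_W.mp hF
        exact ⟨(h1 F d).mpr hF1, fun i => (h2 F d hF1 i _).mpr (hF2 i)⟩
    rw [e1, LinearEquiv.finrank_map_eq]
    exact h
  · right
    refine ⟨φ F, e, a, (MulEquiv.irreducible_iff (φ : R3 ≃* R3)).mpr hF, (h1 F e).mpr he,
      fun i => ⟨(h2 F e he i _).mpr (ha i).1, fun h3 => (ha i).2 ((h2 F e he i _).mp h3)⟩, hneg⟩

theorem HSQ.smul {n d : ℕ} {R : ℕ → Prop} {P : ℕ → (Fin n → ℕ) → Prop} {m : Fin n → ℕ}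
    {q : Fin n → Fin 3 → ℂ} (c : Fin n → ℂ)
    (hc : ∀ i, c i ≠ 0) (h : HSQ R P d m q) : HSQ R P d m (fun i => c i • q i) := by
  refine HSQ.transfer AlgEquiv.refl (fun F e => Iff.rfl) (fun F e he i j => ?_) h
  show F ∈ mi (c i • q i) ^ j ↔ F ∈ mi (q i) ^ j
  constructor
  · intro h1
    have h2 := mem_mi_smul (inv_ne_zero (hc i)) he h1
    rwa [smul_smul, inv_mul_cancel₀ (hc i), one_smul] at h2
  · exact mem_mi_smul (hc i) he

theorem HSQ.mat {n d : ℕ} {R : ℕ → Prop} {P : ℕ → (Fin n → ℕ) → Prop} {m : Fin n → ℕ}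
    {q : Fin n → Fin 3 → ℂ} (A : Matrix (Fin 3) (Fin 3) ℂ)
    (hA : A.det ≠ 0) (h : HSQ R P d m q) : HSQ R P d m (fun i => A.mulVec (q i)) := by
  have hu : IsUnit A.det := isUnit_iff_ne_zero.mpr hA
  have h1 : A * A⁻¹ = 1 := Matrix.mul_nonsing_inv A hu
  have h2 : A⁻¹ * A = 1 := Matrix.nonsing_inv_mul A hu
  let φ : R3 ≃ₐ[ℂ] R3 := AlgEquiv.ofAlgHom (lin A⁻¹) (lin A)
    (AlgHom.ext fun F => CRLIN_lin_lin h1 F) (AlgHom.ext fun F => CRLIN_lin_lin h2 F)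
  have hφ : ∀ F, φ F = lin A⁻¹ F := fun F => rfl
  refine HSQ.transfer φ (fun F e => ⟨fun h3 => ?_, fun h3 => ?_⟩)
    (fun F e he i j => ⟨fun h3 => ?_, fun h3 => ?_⟩) h
  · have h4 := CRLIN_hom A h3
    rwa [hφ, CRLIN_lin_lin h2] at h4
  · rw [hφ]
    exact CRLIN_hom _ h3
  · have h4 := mem_pow_map (q' := q i) (lin A) (fun G => eval_lin A G (q i)) h3
    rwa [hφ, CRLIN_lin_lin h2] at h4
  · rw [hφ]
    refine mem_pow_map (lin A⁻¹) (fun G => ?_) h3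
    rw [eval_lin, Matrix.mulVec_mulVec, h2, Matrix.one_mulVec]

end Pool.MP_70e04f_ag.Cre
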