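import Pool.Agent.Lib_MP_70e04f_cre.Num

/-!
# The number `(L - K) ^ 2` does not decrease under quadratic transformations
-/

set_option autoImplicit false

namespace Pool.MP_70e04f_ag.Cre

variable {n d d' δ : ℕ} {m : Fin n → ℕ} {ι : Fin 3 → Fin n}

theorem TT_cm (hι : Function.Injective ι) (hd : d' + δ = d) (hsum : ∑ j, m (ι j) = d + δ)
    (hlow : ∀ j, δ ≤ m (ι j) + 1) (h2 : ∀ j, 2 ≤ m (ι j)) {c : ℕ}
    (h : 7 * ∑ i with 2 ≤ m i, (m i + 1) ^ 2 + c < 7 * (d + 3) ^ 2) :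
    7 * ∑ i with 2 ≤ cm m ι δ i, (cm m ι δ i + 1) ^ 2 + c < 7 * (d' + 3) ^ 2 := by
  have key : ∀ j, (if 2 ≤ cm m ι δ (ι j) then (((cm m ι δ (ι j) : ℕ) : ℤ) + 1) ^ 2 else 0) ≤
      ((m (ι j) : ℤ) + 1 - δ) ^ 2 := by
    intro j
    have h1 := hlow j
    split_ifs with h3
    · rw [cm_ι] at h3 ⊢
      have h4 : ((m (ι j) - δ : ℕ) : ℤ) = (m (ι j) : ℤ) - δ := by
        push_cast [Nat.cast_sub (by omega : δ ≤ m (ι j))]
        ring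
      rw [h4]
      exact le_of_eq (by ring)
    · positivity
  have e1 : ((∑ i with 2 ≤ m i, (m i + 1) ^ 2 : ℕ) : ℤ) =
      ∑ i, (if 2 ≤ m i then ((m i : ℤ) + 1) ^ 2 else 0) := by
    rw [Finset.sum_filter]
    push_cast
    rfl
  have e2 : ((∑ i with 2 ≤ cm m ι δ i, (cm m ι δ i + 1) ^ 2 : ℕ) : ℤ) =
      ∑ i, (if 2 ≤ cm m ι δ i then (((cm m ι δ i : ℕ) : ℤ) + 1) ^ 2 else 0) := by
    rw [Finset.sum_filter]
    push_cast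
    rfl
  have h' : 7 * ((∑ i with 2 ≤ m i, (m i + 1) ^ 2 : ℕ) : ℤ) + c < 7 * ((d : ℤ) + 3) ^ 2 := by
    exact_mod_cast h
  have goal : 7 * ((∑ i with 2 ≤ cm m ι δ i, (cm m ι δ i + 1) ^ 2 : ℕ) : ℤ) + c <
      7 * ((d' : ℤ) + 3) ^ 2 := by
    rw [e1, sum_split hι] at h'
    rw [e2, sum_split hι]
    have s1 : ∑ i ∈ (Finset.univ.image ι)ᶜ,
        (if 2 ≤ cm m ι δ i then (((cm m ι δ i : ℕ) : ℤ) + 1) ^ 2 else 0) =
        ∑ i ∈ (Finset.univ.image ι)ᶜ, (if 2 ≤ m i then ((m i : ℤ) + 1) ^ 2 else 0) :=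
      Finset.sum_congr rfl fun i hi => by rw [cm_of_notMem (Finset.mem_compl.1 hi)]
    rw [s1]
    rw [if_pos (h2 0), if_pos (h2 1), if_pos (h2 2)] at h'
    have k0 := key 0
    have k1 := key 1
    have k2 := key 2
    rw [Fin.sum_univ_three] at hsum
    have q0 : (m (ι 0) : ℤ) + m (ι 1) + m (ι 2) = d + δ := by exact_mod_cast hsum
    have q1 : (d : ℤ) = d' + δ := by rw [← hd]; push_cast; ring
    have h4 : ((m (ι 0) : ℤ) + 1 - δ) ^ 2 + ((m (ι 1) : ℤ) + 1 - δ) ^ 2 +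
        ((m (ι 2) : ℤ) + 1 - δ) ^ 2 =
        ((m (ι 0) : ℤ) + 1) ^ 2 + ((m (ι 1) : ℤ) + 1) ^ 2 + ((m (ι 2) : ℤ) + 1) ^ 2 -
          2 * δ * (d + δ + 3) + 3 * (δ : ℤ) ^ 2 := by
      rw [← q0]; ring
    have h5 : ((d : ℤ) + 3) ^ 2 - 2 * δ * (d + δ + 3) + 3 * (δ : ℤ) ^ 2 = ((d' : ℤ) + 3) ^ 2 := by
      rw [q1]; ring
    linarith
  exact_mod_cast goal

end Pool.MP_70e04f_ag.Cre
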