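import Pool.Agent.Lib_MP_70e04f_lit.LShgh
import Pool.Agent.Lib_MP_70e04f_lit.LInv
import Pool.Agent.Lib_MP_70e04f_lit.LBase
import Pool.Agent.Lib_MP_70e04f_gon.GFinal

/-!
# The conjecture for all systems outside of the strip (literal form)
-/

set_option autoImplicit false

namespace Pool.MP_70e04f_ag.Cre

open MvPolynomial

/-- the three indices with the largest multiplicities -/
theorem inj_three {n : ℕ} (β : Fin 9 → Fin n) (hβ : Function.Injective β) :
    Function.Injective (fun j : Fin 3 => β (Fin.castLE (by omega) j)) := by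
  intro a b hab
  exact Fin.castLE_injective _ (hβ hab)

theorem lit_step {n d : ℕ} {mm : Fin n → ℕ} {ι : Fin 3 → Fin n} (hι : Function.Injective ι)
    (hp : ∀ i j, i ≠ j → mm i + mm j < d + 2) (hb : ∀ i, mm i ≤ d) (hs : ¬ ∀ i, mm i ≤ 1)
    (h3 : d < ∑ j, mm (ι j)) :
    ∃ δ d' : ℕ, 0 < δ ∧ d' + δ = d ∧ ∑ j, mm (ι j) = d + δ ∧ (∀ j, δ ≤ mm (ι j) + 1) ∧
      (Dich.SHGH d' (cm mm ι δ) → Dich.SHGH d mm) := by
  push Not at hs
  obtain ⟨i0, hi0⟩ := hs
  have hd2 : 2 ≤ d := by have := hb i0; omega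
  obtain ⟨δ, hδ⟩ : ∃ δ, ∑ j, mm (ι j) = d + δ := ⟨∑ j, mm (ι j) - d, by omega⟩
  have hpair : ∀ j k, j ≠ k → mm (ι j) + mm (ι k) ≤ d + 1 := by
    intro j k hjk
    have := hp (ι j) (ι k) (fun h => hjk (hι h))
    omega
  have p01 := hpair 0 1 (by decide)
  have p02 := hpair 0 2 (by decide)
  have p12 := hpair 1 2 (by decide)
  have hδ' := hδ
  rw [Fin.sum_univ_three] at hδ'
  have hlow : ∀ j, δ ≤ mm (ι j) + 1 := by
    intro j
    fin_cases j <;> simp <;> omega
  refine ⟨δ, d - δ, by omega, by omega, hδ, hlow, fun h => ?_⟩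
  exact shgh_cremona' hι (by omega) hδ hpair (fun j => hb _) h

/-- Systems in standard form. -/
theorem lit_std {n X d : ℕ} (mm : Fin n → ℕ) (α : Fin 9 → Fin n) (hα : Function.Injective α)
    (hX : ∀ i, i ∉ Set.range α → mm i + 1 ≤ X)
    (hT : 7 * ∑ i with 2 ≤ mm i, (mm i + 1) ^ 2 + X ^ 2 < 7 * (d + 3) ^ 2)
    (h3 : ∀ ι : Fin 3 → Fin n, Function.Injective ι → ∑ j, mm (ι j) ≤ d) : Strip.GExp d mm := by
  classical
  obtain ⟨β, hβ, hanti, hβ8⟩ := exists_sorted mm α hα
  by_cases hz : ∀ i, i ∉ Set.range β → mm i ≤ 1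
  · exact Strip.gexp_simple mm β hβ hz h3
  push Not at hz
  obtain ⟨i1, hi1, hi1'⟩ := hz
  obtain ⟨i0, hi0, hmax⟩ := Finset.exists_max_image (Finset.univ.filter fun i => i ∉ Set.range β)
    mm ⟨i1, by simpa using hi1⟩
  have hi0' : i0 ∉ Set.range β := (Finset.mem_filter.1 hi0).2
  have hmax' : ∀ i, i ∉ Set.range β → mm i ≤ mm i0 := fun i hi =>
    hmax i (Finset.mem_filter.2 ⟨Finset.mem_univ i, hi⟩)
  have h20 : 2 ≤ mm i0 := by have := hmax' i1 hi1; omega
  have h08 : mm i0 ≤ mm (β 8) := hβ8 i0 hi0'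
  have hm : mm i0 + 1 ≤ X := by
    have hX1 : 1 ≤ X := by
      obtain ⟨i, hi⟩ : ∃ i, i ∉ Set.range α := by
        by_contra hcon
        push Not at hcon
        have hsurj : Finset.univ.image α = Finset.univ := by
          ext i
          rw [Finset.mem_image]
          constructor
          · intro _
            exact Finset.mem_univ _
          · intro _
            obtain ⟨j, hj⟩ := hcon i
            exact ⟨j, Finset.mem_univ _, hj⟩
        have hc : (Finset.univ.image α).card = 9 := by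
          rw [Finset.card_image_of_injective _ hα]; simp
        have hc2 : (insert i0 (Finset.univ.image β)).card = 10 := by
          rw [Finset.card_insert_of_notMem (by
            intro h
            rw [Finset.mem_image] at h
            obtain ⟨t, _, ht⟩ := h
            exact hi0' ⟨t, ht⟩), Finset.card_image_of_injective _ hβ]
          simp
        have hc3 := Finset.card_le_card (Finset.subset_univ (insert i0 (Finset.univ.image β)))
        rw [← hsurj] at hc3
        omega
      have := hX i hi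
      omega
    have := Strip.GPos_le (m := X - 1) mm α β hα hβ hanti hβ8 (fun i hi => by
      have := hX i (Strip.mem_Sm.1 hi)
      omega) i0 hi0'
    omega
  -- the ten indices
  obtain ⟨γ, hγ⟩ : ∃ γ : Fin 10 → Fin n, γ = Fin.snoc (α := fun _ => Fin n) β i0 := ⟨_, rfl⟩
  have hγc : ∀ j : Fin 9, γ j.castSucc = β j := by
    intro j
    rw [hγ]
    exact Fin.snoc_castSucc (α := fun _ => Fin n) i0 β j
  have hγl : γ (Fin.last 9) = i0 := by
    rw [hγ]
    exact Fin.snoc_last (α := fun _ => Fin n) i0 β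
  have hγl' : γ 9 = i0 := hγl
  have hγinj : Function.Injective γ := by
    intro a b hab
    rcases Fin.eq_castSucc_or_eq_last a with ⟨a', rfl⟩ | rfl <;>
      rcases Fin.eq_castSucc_or_eq_last b with ⟨b', rfl⟩ | rfl
    · rw [hγc, hγc] at hab
      rw [hβ hab]
    · rw [hγc, hγl] at hab
      exact absurd ⟨a', hab⟩ hi0'
    · rw [hγc, hγl] at hab
      exact absurd ⟨b', hab.symm⟩ hi0'
    · rfl
  have hγanti : Antitone (fun j => mm (γ j)) := by
    intro a b hab
    simp only
    rcases Fin.eq_castSucc_or_eq_last a with ⟨a', rfl⟩ | rfl <;>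
      rcases Fin.eq_castSucc_or_eq_last b with ⟨b', rfl⟩ | rfl
    · rw [hγc, hγc]
      exact hanti (Fin.castSucc_le_castSucc_iff.1 hab)
    · rw [hγc, hγl]
      exact h08.trans (hanti (show a' ≤ 8 by omega))
    · exfalso
      have := Fin.castSucc_lt_last b'
      exact absurd hab (not_le.2 this)
    · exact le_rfl
  have hlt : ∑ i with 2 ≤ mm i, (mm i + 1) ^ 2 < (d + 3) ^ 2 := by omega
  obtain ⟨N, hN⟩ : ∃ N, ∑ i with 2 ≤ mm i, (mm i + 1) ^ 2 + N = (d + 3) ^ 2 :=
    ⟨_, Nat.add_sub_of_le hlt.le⟩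
  refine Strip.gen_thin2 n d d N mm γ hγinj hγanti (by rw [hγl']; exact h20) ?_ ?_ (by omega)
    (Or.inl ⟨hN, Or.inl ?_⟩) (Or.inl rfl)
  · intro i hi
    rw [hγl']
    apply hmax'
    rintro ⟨j, rfl⟩
    exact hi ⟨j.castSucc, hγc j⟩
  · have e0 : γ 0 = β 0 := hγc 0
    have e1 : γ 1 = β 1 := hγc 1
    have e2 : γ 2 = β 2 := hγc 2
    have h := h3 _ (inj_three β hβ)
    rw [Fin.sum_univ_three] at h
    rw [e0, e1, e2]
    exact h
  · rw [hγl']
    have : (mm i0 + 1) ^ 2 ≤ X ^ 2 := Nat.pow_le_pow_left hm 2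
    omega

/-- The conjecture, with both alternatives, for all systems with `7 (L - K) ^ 2 > X ^ 2`, where all
but nine multiplicities are less than `X`; and for all systems with at most nine multiple
points. -/
theorem shgh_strip7 {n X : ℕ} (d : ℕ) (mm : Fin n → ℕ) (α : Fin 9 → Fin n)
    (hα : Function.Injective α)
    (h : (∀ i, i ∉ Set.range α → mm i ≤ 1) ∨ (∀ i, i ∉ Set.range α → mm i + 1 ≤ X) ∧
      7 * ∑ i with 2 ≤ mm i, (mm i + 1) ^ 2 + X ^ 2 < 7 * (d + 3) ^ 2) : Dich.SHGH d mm := by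
  classical
  induction d using Nat.strong_induction_on generalizing mm α with
  | _ d ih =>
    by_cases hp : ∃ i j, i ≠ j ∧ d + 2 ≤ mm i + mm j
    · obtain ⟨i, j, hij, h⟩ := hp
      exact Dich.line_alt mm i j hij h
    push Not at hp
    by_cases hs : ∀ i, mm i ≤ 1
    · exact shgh_simple hs
    by_cases hb : ∃ i, d + 1 ≤ mm i
    · obtain ⟨i0, hi0⟩ := hb
      obtain ⟨i1, hi1⟩ : ∃ i1, i1 ≠ i0 := by
        by_cases h0 : α 0 = i0
        · exact ⟨α 1, fun h1 => absurd (hα (h1.trans h0.symm)) (by decide)⟩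
        · exact ⟨α 0, h0⟩
      have h1 := hp i1 i0 hi1
      refine shgh_one i0 (by omega) (fun i hi => ?_)
      have h2 := hp i i0 hi
      omega
    push Not at hb
    have hb' : ∀ i, mm i ≤ d := fun i => by have := hb i; omega
    by_cases h3 : ∀ ι : Fin 3 → Fin n, Function.Injective ι → ∑ j, mm (ι j) ≤ d
    · have : Strip.GExp d mm := by
        rcases h with h | ⟨hX, hT⟩
        · exact Strip.gexp_simple mm α hα h h3
        · exact lit_std mm α hα hX hT h3
      obtain ⟨g, hg, h⟩ := this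
      exact ⟨g, hg, fun p hp => Or.inl (h p hp)⟩
    have hle : ∀ {ι : Fin 3 → Fin n} {δ : ℕ} (i : Fin n), cm mm ι δ i ≤ mm i := by
      intro ι δ i
      unfold cm
      split_ifs
      · exact Nat.sub_le _ _
      · exact le_rfl
    -- systems with at most nine multiple points
    have case1 : ∀ α' : Fin 9 → Fin n, Function.Injective α' →
        (∀ i, i ∉ Set.range α' → mm i ≤ 1) → Dich.SHGH d mm := by
      intro α' hα' h1
      push Not at h3
      obtain ⟨ι, hι, h3⟩ := h3
      obtain ⟨δ, d', hδ, hd, hsum, hlow, hstep⟩ := lit_step hι hp hb' hs h3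
      exact hstep (ih d' (by omega) _ α' hα' (Or.inl fun i hi => (hle i).trans (h1 i hi)))
    rcases h with h | ⟨hX, hT⟩
    · exact case1 α hα h
    obtain ⟨β, hβ, hanti, hβ8⟩ := exists_sorted mm α hα
    by_cases h22 : 2 ≤ mm (β 2)
    · have hviol : d < ∑ j : Fin 3, mm (β (Fin.castLE (by omega) j)) := by
        by_contra hcon
        apply h3
        intro ι hι
        refine Strip.three_le d (mm (β 8)) mm β hβ hanti le_rfl hβ8 ?_ ι hι
        rw [Fin.sum_univ_three, not_lt] at hcon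
        exact hcon
      obtain ⟨δ, d', hδ, hd, hsum, hlow, hstep⟩ :=
        lit_step (inj_three β hβ) hp hb' hs hviol
      have hge : ∀ j : Fin 3, 2 ≤ mm (β (Fin.castLE (by omega) j)) := by
        intro j
        refine h22.trans (hanti ?_)
        rw [Fin.le_def]
        show (j : ℕ) ≤ 2
        omega
      refine hstep (ih d' (by omega) _ α hα (Or.inr ⟨fun i hi => ?_, ?_⟩))
      · have h4 := hX i hi
        have h5 := hle (ι := fun j : Fin 3 => β (Fin.castLE (by omega) j)) (δ := δ) i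
        omega
      · exact TT_cm (inj_three β hβ) hd hsum hlow hge hT
    · refine case1 β hβ (fun i hi => ?_)
      have h1 := hβ8 i hi
      have h2 : mm (β 8) ≤ mm (β 2) := hanti (by decide)
      omega

end Pool.MP_70e04f_ag.Cre
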