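import Pool.Agent.Lib_MP_70e04f_lit.LConf
import Pool.Agent.Lib_MP_70e04f_cre.Final
import Pool.Agent.Lib_MP_70e04f_strip.SSimp

/-!
# Invariance of the conjecture under quadratic transformations, and degenerate systems
-/

set_option autoImplicit false

namespace Pool.MP_70e04f_ag.Cre

open MvPolynomial

/-- the product of the differences of the first coordinates -/
noncomputable def disc (n : ℕ) : MvPolynomial (Fin n × Fin 2) ℂ :=
  ∏ i : Fin n, ∏ j ∈ Finset.univ.erase i, (X (i, 0) - X (j, 0))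

theorem disc_ne (n : ℕ) : disc n ≠ 0 := by
  unfold disc
  rw [Finset.prod_ne_zero_iff]
  intro i _
  rw [Finset.prod_ne_zero_iff]
  intro j hj
  rw [sub_ne_zero]
  intro h
  have h1 := MvPolynomial.X_injective h
  rw [Prod.mk.injEq] at h1
  exact (Finset.ne_of_mem_erase hj) h1.1.symm

theorem inj_of_disc {n : ℕ} {p : Fin n → Fin 2 → ℂ}
    (h : MvPolynomial.eval (fun q : Fin n × Fin 2 => p q.1 q.2) (disc n) ≠ 0) :
    Function.Injective p := by
  intro i j hij
  by_contra hne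
  apply h
  unfold disc
  rw [map_prod]
  refine Finset.prod_eq_zero (Finset.mem_univ i) ?_
  rw [map_prod]
  refine Finset.prod_eq_zero (Finset.mem_erase.2 ⟨fun h => hne h.symm, Finset.mem_univ j⟩) ?_
  rw [map_sub, eval_X, eval_X]
  show p i 0 - p j 0 = 0
  rw [hij, sub_self]

/-- Invariance of the conjecture under quadratic transformations. -/
theorem shgh_cremona' {n d d' δ : ℕ} {m : Fin n → ℕ} {ι : Fin 3 → Fin n}
    (hι : Function.Injective ι) (hd : d' + δ = d) (hsum : ∑ j, m (ι j) = d + δ)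
    (hpair : ∀ j k, j ≠ k → m (ι j) + m (ι k) ≤ d + 1) (hup : ∀ j, m (ι j) ≤ d)
    (h : Dich.SHGH d' (cm m ι δ)) : Dich.SHGH d m := by
  rw [shgh_iff] at h ⊢
  obtain ⟨g', hg', h'⟩ := h
  obtain ⟨g, hg, h2⟩ := exists_generic ι hι (g' * disc n) (mul_ne_zero hg' (disc_ne n))
  have hlow : ∀ j, δ ≤ m (ι j) + 1 := by
    intro j
    rw [Fin.sum_univ_three] at hsum
    have h01 := hpair 0 1 (by decide)
    have h02 := hpair 0 2 (by decide)
    have h12 := hpair 1 2 (by decide)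
    fin_cases j
    · change δ ≤ m (ι 0) + 1; omega
    · change δ ≤ m (ι 1) + 1; omega
    · change δ ≤ m (ι 2) + 1; omega
  refine ⟨g * disc n, mul_ne_zero hg (disc_ne n), fun p hp => ?_⟩
  rw [map_mul] at hp
  obtain ⟨hgood, hne⟩ := h2 p (left_ne_zero_of_mul hp)
  rw [map_mul] at hne
  exact S.cremona' hι hd hsum hlow hup hgood (inj_of_disc (right_ne_zero_of_mul hp))
    (inj_of_disc (right_ne_zero_of_mul hne)) (h' _ (left_ne_zero_of_mul hne))

/-- One point, of multiplicity `d + 1`. -/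
theorem shgh_one {n d : ℕ} {m : Fin n → ℕ} (i0 : Fin n) (h0 : m i0 = d + 1)
    (h1 : ∀ i, i ≠ i0 → m i = 0) : Dich.SHGH d m := by
  rw [shgh_iff]
  refine ⟨1, one_ne_zero, fun p _ => Or.inl ?_⟩
  have hbot : V d m p = ⊥ := by
    rw [Submodule.eq_bot_iff]
    intro G hG
    by_contra hG0
    obtain ⟨h2, h3⟩ := CRHS_mem_V.1 hG
    have h4 := Strip.le_deg_of_mem hG0 (h3 i0)
    omega
  rw [hbot, finrank_bot]
  unfold Dim
  have h5 : ∑ i, (m i : ℤ) * ((m i : ℤ) + 1) = ((d : ℤ) + 1) * ((d : ℤ) + 2) := by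
    rw [Finset.sum_eq_single i0 (fun i _ hi => by rw [h1 i hi]; simp)
      (fun h => absurd (Finset.mem_univ i0) h), h0]
    push_cast
    ring
  rw [h5, sub_self]
  simp

/-- Simple points. -/
theorem shgh_simple {n d : ℕ} {m : Fin n → ℕ} (h1 : ∀ i, m i ≤ 1) : Dich.SHGH d m := by
  have h0 : Strip.EXP d (fun a : Fin 0 => m (Fin.elim0 a)) (fun _ _ => (0 : ℂ)) := by
    unfold Strip.EXP
    refine le_max_of_le_right ?_
    have h2 := Strip.two_finrank_Pt (k := ℂ) d
    have h3 : Module.finrank ℂ ↥(Strip.Pt ℂ d ⊓ Strip.sp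
        (Strip.Iz (fun _ _ => (0 : ℂ)) (fun a : Fin 0 => m (Fin.elim0 a)))) ≤
        Module.finrank ℂ ↥(Strip.Pt ℂ d) := Submodule.finrank_mono inf_le_left
    have h4 : ((2 * Module.finrank ℂ ↥(Strip.Pt ℂ d) : ℕ) : ℤ) =
        ((d : ℤ) + 1) * ((d : ℤ) + 2) := by
      rw [h2]; push_cast; rfl
    rw [← h4]
    push_cast
    simp only [Finset.univ_eq_empty, Finset.sum_empty, sub_zero]
    exact_mod_cast Nat.mul_le_mul_left 2 h3
  obtain ⟨p, hp⟩ := h0.extend (fun a : Fin 0 => Fin.elim0 a) (fun a => Fin.elim0 a)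
    (fun i _ => h1 i)
  obtain ⟨g, hg, h⟩ := Strip.gexp_of_good d m p hp.good
  exact ⟨g, hg, fun p hp => Or.inl (h p hp)⟩

end Pool.MP_70e04f_ag.Cre
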